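import Mathlib

/-!
# Project SZ (helper906), MP_cafdd5_nt: the exact size of the set of all elliptic curves with large Szpiro ratio

Target. Let `1 < σ < 6/5`. The number `E(X)` of all minimal models `y² = x³ - a x - b` of elliptic curves
over `ℚ` with `|a| ≤ X²`, `|b| ≤ X³` and `|D| ≥ N ^ σ` is
`X ^ (6/σ - 1) * exp ((√(96 (1 - 1/σ)) + o(1)) √(log X / log log X))`.
(`6/σ - 1` is `0` at `σ = 6`, Szpiro's exponent.) With `lam = 1 - 1/σ` (`0 < lam < 1/6`) the condition is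
`|D| / N ≥ |D| ^ lam`.

Idea. `n = |D| / N₆` is a positive integer; for `p ≥ 5` the condition `p ^ g ∣ n` holds modulo `p ^ (g + 1)` for
about `2 p ^ (g + 1)` of the `p ^ (2 g + 2)` classes of pairs `(a, b)` (multiplicative reduction `I_{g+1}`, and
`I*_{g-4}`), so that the expected number of curves with `n ∣ |D| / N₆` is `2 ^ ω(n) X ^ 5 / (n rad n)`.
Then sum this over `n ≥ X ^ (6 lam)` (Rankin's method, as in project RS).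
-/

set_option autoImplicit false

namespace Pool.Agent.N906.SZ

open Finset Filter Topology

/-! ### Definitions -/

/-- the discriminant `4a³ - 27b²` -/
def Dd (a b : ℤ) : ℤ := 4 * a ^ 3 - 27 * b ^ 2

/-- minimal models -/
def Mn (a b : ℤ) : Prop :=
  Dd a b ≠ 0 ∧ ∀ p : ℕ, p.Prime → ¬ ((p : ℤ) ^ 4 ∣ a ∧ (p : ℤ) ^ 6 ∣ b)

/-- the prime-to-6 part of the conductor of a minimal model -/
def Nc (a b : ℤ) : ℕ :=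
  ∏ p ∈ (Dd a b).natAbs.primeFactors.filter (fun p => 5 ≤ p), if (p : ℤ) ∣ a then p ^ 2 else p

/-- the exponent of `p` in `N₆`, for the primes `p` dividing `D` -/
def fe (p : ℕ) (a : ℤ) : ℕ := if p < 5 then 0 else if (p : ℤ) ∣ a then 2 else 1

/-- the condition `C_n`: `n` divides `|D| / N₆`, in a local form -/
def Cn (n : ℕ) (a b : ℤ) : Prop :=
  ∀ p ∈ n.primeFactors, (p : ℤ) ^ (n.factorization p + fe p a) ∣ Dd a b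

/-- the product of the primes `≥ 5` dividing `n` -/
def rd (n : ℕ) : ℕ := ∏ p ∈ n.primeFactors.filter (fun p => 5 ≤ p), p

/-- the number of the local types, with multiplicity: 3 for the exponents 6, 7, 8 (`II*`, `III*`, `IV*`) -/
def cc (n : ℕ) : ℕ :=
  ∏ p ∈ n.primeFactors.filter (fun p => 5 ≤ p),
    if 6 ≤ n.factorization p ∧ n.factorization p ≤ 8 then 3 else 2

/-! ### The upper bound -/

/-- GAIN. `n = |D| / N₆` is an integer and satisfies `Cn n`. (For `p ≥ 5`, `p ∣ D` and `p ∣ a` one has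
`p ∣ b`, so `p² ∣ D`. `n = ∏_{p ∣ D} p ^ (v_p(D) - fe p a)`.) -/
def S_GAIN : Prop := ∀ a b : ℤ, Dd a b ≠ 0 →
  ∃ n : ℕ, 1 ≤ n ∧ Cn n a b ∧ (Dd a b).natAbs = n * Nc a b

/-- DENS (local densities). `M = n * rd n = 2^i 3^j ∏_{p ≥ 5} p^(g+1)`, `g = v_p(n)`.
`Q a b` is the conjunction of local conditions `Q_p`, `p ∣ n`, on `(a, b)` modulo `p ^ (g + 1)` (`p ^ g` for
`p = 2, 3`), and by the Chinese remainder theorem the number of the pairs is the product of the local numbers.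
(1) `p = 2, 3`: `Q_p` is: `p ^ g ∣ Dd a b` and, if `6 ≤ g`, not (`p⁴ ∣ a` and `p⁶ ∣ b`). Number of the pairs
modulo `p ^ g` at most `p^14 p^g`: trivial for `g ≤ 14`. For `g > 14`: if `p⁴ ∣ a` (so `p⁶ ∤ b`) then
`v(27 b²) ≤ 13`, and equality of `v(4a³)` (`≥ 12`) and `v(27b²)` is impossible, so `p ^ g ∤ D`; if `v(a) ≤ 3` then
`b² ≡ 4a³/27`, so `b = p^β b'` with `2 β = v(4a³/27) ≤ 11` and `b'` is in at most 4 classes modulo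
`p^(g - 2β - 3)` or so.
(2) `p ≥ 5`, `g ≥ 1`: `Q_p` is: [`p ∤ a` and `p^(g+1) ∣ Dd a b`] or [`p ∣ a`, `p^(g+2) ∣ Dd a b` and, if `5 ≤ g`, not
(`p⁴ ∣ a` and `p⁶ ∣ b`)] (well defined modulo `p ^ (g+1)`: in the second case `p ∣ b`, and changing `a, b` by multiples
of `p^(g+1)` changes `4a³` by a multiple of `p^(g+3)` and `27b²` by a multiple of `p^(g+2)`). Numbers of the pairs
modulo `p^(g+1)`: first case: `a = 3t²`, `b = 2t³` with `t = 3b/(2a)` a unit (a bijection), `≤ p^(g+1)`. Second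
case: at most `p^(g+1)`, resp. `2 p^(g+1)` for `g = 6, 7, 8`:
`g = 1`: `p ∣ a`, `p² ∣ b`; `g = 2`: `p² ∣ a`, `p² ∣ b`; `g = 3, 4`: `p² ∣ a`, `p³ ∣ b`; `g ≥ 5`: `a = p² a₁`, `b = p³ b₁`,
`p^k ∣ Dd a₁ b₁` with `k = g - 4`, `p²∤a₁` or `p³∤b₁`: modulo `p^k` at most `p^k` pairs with `p ∤ a₁` (as above,
`p^k - p^(k-1)`), and with `p ∣ a₁`: `p ∣ b₁`; `k = 1`: one pair `(0,0)`, total `p`; `k = 2`: `p²` pairs; `k = 3`: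
`p ∣ a₁`, `p² ∣ b₁`, `p³` pairs; `k = 4`: `p² ∣ a₁`, `p² ∣ b₁`, `p⁴` pairs; `k ≥ 5`: none; and each pair modulo `p^k`
comes from `p^(g-1-k) p^(g-2-k) = p^5` pairs `(a, b)` modulo `p^(g+1)`. -/
def S_DENS : Prop := ∃ C : ℝ, 0 < C ∧ ∀ n : ℕ, 1 ≤ n → ∃ Q : ℤ → ℤ → Prop,
  (∀ a b, Q (a + (n * rd n : ℕ)) b ↔ Q a b) ∧ (∀ a b, Q a (b + (n * rd n : ℕ)) ↔ Q a b) ∧
  (∀ a b, Mn a b → Cn n a b → Q a b) ∧
  ∀ F : Finset (ℤ × ℤ), (∀ x ∈ F, 0 ≤ x.1 ∧ x.1 < (n * rd n : ℕ) ∧ 0 ≤ x.2 ∧ x.2 < (n * rd n : ℕ) ∧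
    Q x.1 x.2) → (F.card : ℝ) ≤ C * cc n * (n * rd n : ℕ)

/-- REG (the region `|D| ≤ Y`). For each of the `ρ` classes `(α, β)` modulo `M`: (1) the `a ≡ α` with
`|a| ≤ Y^(1/3)`: at most `3 Y^(1/3) / M` (`M ≤ Y^(1/3)`), and then `27 b² ≤ 5 Y`, at most `3 Y^(1/2) / M` numbers
`b ≡ β`. (2) `a < - Y^(1/3)` is impossible. (3) `a > Y^(1/3)`: `b²` is in an interval of length `2Y/27` with midpoint
`4a³/27`, so `|b|` in an interval of length `≤ Y / a^(3/2)`; at most `2 (Y / (a^(3/2) M) + 1)` numbers `b ≡ β`. The sum of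
`a^(-3/2)` over `a ≡ α`, `a > Y^(1/3)` is at most `3 Y^(-1/6) / M` (compare with the integral; `M ≤ Y^(1/3)`), and there are
at most `X²/M + 1 ≤ 5 X²/M` numbers `a` (`M ≤ Y^(1/3) ≤ 3.2 X²`). -/
def S_REG : Prop := ∃ C : ℝ, 0 < C ∧ ∀ (X Y : ℝ) (M : ℕ) (ρ : ℝ) (Q : ℤ → ℤ → Prop), 1 ≤ X → 1 ≤ Y →
  Y ≤ 31 * X ^ 6 → 1 ≤ M → (M : ℝ) ^ 3 ≤ Y → (∀ a b, Q (a + M) b ↔ Q a b) →
  (∀ a b, Q a (b + M) ↔ Q a b) →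
  (∀ F : Finset (ℤ × ℤ), (∀ x ∈ F, 0 ≤ x.1 ∧ x.1 < M ∧ 0 ≤ x.2 ∧ x.2 < M ∧ Q x.1 x.2) →
    (F.card : ℝ) ≤ ρ) →
  ∀ F : Finset (ℤ × ℤ), (∀ x ∈ F, |(x.1 : ℝ)| ≤ X ^ 2 ∧ |((Dd x.1 x.2 : ℤ) : ℝ)| ≤ Y ∧ Q x.1 x.2) →
    (F.card : ℝ) ≤ C * ρ * (Y ^ (5 / 6 : ℝ) / M ^ 2 + X ^ 2 / M)

/-- CNT. From DENS and REG. -/
def S_CNT : Prop := ∃ C : ℝ, 0 < C ∧ ∀ (X Y : ℝ) (n : ℕ), 1 ≤ X → 1 ≤ Y → Y ≤ 31 * X ^ 6 → 1 ≤ n →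
  ((n * rd n : ℕ) : ℝ) ^ 3 ≤ Y →
  ∀ F : Finset (ℤ × ℤ), (∀ x ∈ F, Mn x.1 x.2 ∧ |(x.1 : ℝ)| ≤ X ^ 2 ∧ |((Dd x.1 x.2 : ℤ) : ℝ)| ≤ Y ∧
    Cn n x.1 x.2) →
    (F.card : ℝ) ≤ C * cc n * (Y ^ (5 / 6 : ℝ) / (n * rd n : ℕ) + X ^ 2)

/-- PERA (counting for each `a`, without a condition on the modulus, with a factor `6 ^ ω(n)`). `n` is coprime
to 6, `M = n * rd n`. For each prime `p ∣ n`, `g = v_p(n)`, there are at most three shapes (`a ≠ 0`):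
(i) `p ∤ a`: `b` is in at most 2 classes (depending on `a`) modulo `p^(g+1)`; `α = 0`, `κ = g + 1`.
(ii), (iii) `p ∣ a`, so that `p^(g+2) ∣ D`: `g = 1`: `p ∣ a`, `p² ∣ b`, (`α = 1`, `κ = 2`); `g = 2`: `p² ∣ a`, `p² ∣ b`, (2, 2);
`g = 3, 4`: `p² ∣ a`, `p³ ∣ b`, (2, 3); `g ≥ 5`, `v(a) = 2`: `b = p³ b₁`, `b₁² ≡ 4 a₁³ / 27` modulo `p^(g-4)`, so `b` is in at
most two classes modulo `p^(g-1)`, (2, g - 1); `g ≥ 5`, `v(a) ≥ 3` (the model being minimal this implies `g ≤ 8`):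
`g = 5, 6`: `p³ ∣ a`, `p⁴ ∣ b` (3, 4); `g = 7`: `p³ ∣ a`, `p⁵ ∣ b` (3, 5); `g = 8`: `p⁴ ∣ a`, `p⁵ ∣ b` (4, 5).
In all cases `p^α ∣ a`, `b` in at most two classes modulo `p^κ`, `α + κ ≥ g + 1`. For given shapes let `A = ∏ p^α`,
`K = ∏ p^κ`, `A K ≥ M`. As in REG: the `a` with `A ∣ a`, `0 < |a| ≤ Y^(1/3)` are at most `2 min(Y^(1/3), X²) / A`, with at
most `2^ω (3 Y^(1/2) / K + 1)` numbers `b` each; the `a > Y^(1/3)` contribute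
`≤ 2^ω ∑_{A ∣ a, Y^(1/3) < a ≤ X²} 2 (Y / (a^(3/2) K) + 1)` with `∑ a^(-3/2) ≤ 4 Y^(-1/6) / A` (for `A > Y^(1/3)` it is
`≤ 3 A^(-3/2)`). -/
def S_PERA : Prop := ∃ C : ℝ, 0 < C ∧ ∀ (X Y : ℝ) (n : ℕ), 1 ≤ X → 1 ≤ Y → 1 ≤ n → n.Coprime 6 →
  ∀ F : Finset (ℤ × ℤ), (∀ x ∈ F, x.1 ≠ 0 ∧ Mn x.1 x.2 ∧ |(x.1 : ℝ)| ≤ X ^ 2 ∧
    |((Dd x.1 x.2 : ℤ) : ℝ)| ≤ Y ∧ Cn n x.1 x.2) →
    (F.card : ℝ) ≤ C * 6 ^ n.primeFactors.card * (Y ^ (5 / 6 : ℝ) / (n * rd n : ℕ) + X ^ 2)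

/-- CONIC. Uniform bound for the number of the solutions of `x² + r y² = N` (uniform in `r`; the class number
or the regulator do not matter). Proof. (a) Divide by `gcd(x, y)²` (at most `d(N)` values): so `x, y` coprime.
(b) If a prime `ℓ` divides `N` and `ℓ²` divides `r` then `ℓ ∣ x` for all solutions; replace `(x, y, r, N)` by
`(x/ℓ, y, r/ℓ², N/ℓ²)` (induction on `|N|`; the number of solutions does not change). So for the primes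
`ℓ ∣ N` we may assume `ℓ² ∤ r`. (c) `y` is a unit modulo `N`; let `z = x / y` modulo `N`, `z² ≡ - r`: there are at most
`4 * 2^ω(N) ≤ C B^ε` classes `z` (if `ℓ ∣ r`, `ℓ ∣ N`, then `ℓ² ∤ N` and `z ≡ 0` modulo `ℓ`). (d) Two solutions in the
same class: `s = (x₁ x₂ + r y₁ y₂) / N` and `t = (x₁ y₂ - x₂ y₁) / N` are integers with `s² + r t² = 1`. If `r > 0` then
at most 4 solutions are in a class. If `r = - R < 0`: for `α = x + y √R` one has `α₁ / α₂ = s ± t √R`, which is `± 1` if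
`t = 0` and of absolute value `≥ 3` or `≤ 1/3` otherwise (`R = 1` gives `t = 0`); and
`1 / (B (1 + √R)) ≤ |α| ≤ B (1 + √R)`, `R ≤ 2 B²` if `y ≠ 0`; so at most `C log (B + 1)` solutions are in a class.
Tools: `Pool/Agent/H328R2/ABC/Roots.lean`, `Pool/Agent/R417/PI/Pell.lean` (`geo_card`, `logb_bound`). -/
def S_CONIC : Prop := ∀ ε : ℝ, 0 < ε → ∃ C : ℝ, 0 < C ∧ ∀ (r N : ℤ) (B : ℝ), r ≠ 0 → N ≠ 0 → 1 ≤ B →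
  |(N : ℝ)| ≤ B → ∀ F : Finset (ℤ × ℤ),
    (∀ z ∈ F, |(z.1 : ℝ)| ≤ B ∧ |(z.2 : ℝ)| ≤ B ∧ z.1 ^ 2 + r * z.2 ^ 2 = N) → (F.card : ℝ) ≤ C * B ^ ε

/-- LP (large square divisors). From CONIC: `D = r p²` with `r ≠ 0`, `|r| ≤ 31 X⁶ / P²`; for each `a ≠ 0` and
each `r` the pairs `(27 b, p)` lie on `x² + 27 r p² = 108 a³`, `p ≤ 6 X³`. -/
def S_LP : Prop := ∀ ε : ℝ, 0 < ε → ∃ C : ℝ, 0 < C ∧ ∀ (X P : ℝ), 1 ≤ X → 1 ≤ P →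
  ∀ F : Finset (ℤ × ℤ), (∀ x ∈ F, x.1 ≠ 0 ∧ |(x.1 : ℝ)| ≤ X ^ 2 ∧ |(x.2 : ℝ)| ≤ X ^ 3 ∧
    Dd x.1 x.2 ≠ 0 ∧ ∃ p : ℕ, P ≤ p ∧ (p : ℤ) ^ 2 ∣ Dd x.1 x.2) →
    (F.card : ℝ) ≤ C * X ^ (8 + ε) / P ^ 2

/-- EUPQ. The logarithm of the Euler product over the prime numbers, from
`Pool.Agent.N163.RS.eup_core` (abstract) and the prime number theorem (in the library, or
`Pool.Agent.N134.RS.pit ℚ`). -/
def S_EUPQ : Prop := ∀ μ θ ε : ℝ, 0 < μ → 0 ≤ θ → θ ≤ 1 / 2 → 0 < ε →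
  ∃ u₀ : ℝ, 0 < u₀ ∧ u₀ < 1 / 2 ∧ ∀ u : ℝ, 0 < u → u < u₀ → ∀ s : Finset ℕ, (∀ p ∈ s, p.Prime) →
    ∑ p ∈ s, Real.log (1 + μ * (p : ℝ) ^ (θ * u - 1) / ((p : ℝ) ^ u - 1)) ≤
      (1 + ε) * μ / (u * Real.log (1 / u))

/-- GUPQ. From EUPQ (compare `Pool.Agent.N49.RS.gup`). -/
def S_GUPQ : Prop := ∀ μ θ ε : ℝ, 0 < μ → 0 ≤ θ → θ ≤ 1 / 2 → 0 < ε →
  ∃ u₀ : ℝ, 0 < u₀ ∧ u₀ < 1 / 2 ∧ ∀ u : ℝ, 0 < u → u < u₀ → ∀ F : Finset ℕ, (∀ n ∈ F, 1 ≤ n) →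
    ∑ n ∈ F, μ ^ n.primeFactors.card * (n : ℝ) ^ (-u) *
      ((∏ p ∈ n.primeFactors, p : ℕ) : ℝ) ^ (-(1 - θ * u)) ≤
      Real.exp ((1 + ε) * μ / (u * Real.log (1 / u)))

/-- GENU. From GUPQ (`μ = 2`, `θ = 0`). `cc n` is the sum over the unitary divisors `m` of the 6-free part of
`n` (`m` with exponents `6, 7, 8` only) of `2 ^ ω(rest)`, so that the sum is at most the product of
the sum over powers of 2 and of 3, of `(∑_{s squarefree} 3^ω(s) s^(-1-6u)) ≤ (∑ k^(-1-6u))^3 ≤ (1 + 1/(6u))^3`, and of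
the sum in GUPQ; the first factors are `≤ (C/u)^5 ≤ exp (ε / (u log (1/u)))`. -/
def S_GENU : Prop := ∀ ε : ℝ, 0 < ε → ∃ u₀ : ℝ, 0 < u₀ ∧ u₀ < 1 / 2 ∧
  ∀ u : ℝ, 0 < u → u < u₀ → ∀ F : Finset ℕ, (∀ n ∈ F, 1 ≤ n) →
    ∑ n ∈ F, (cc n : ℝ) * (n : ℝ) ^ (-u) / rd n ≤
      Real.exp ((1 + ε) * 2 / (u * Real.log (1 / u)))

/-- UPA (divisors `n` with small modulus), from CNT and GENU. `L = log X`, `v = 6 lam L`. By CNT (as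
`n * rd n ≤ n² ≤ R²`, `R⁶ ≤ Y`) the number is at most `C ∑_{T ≤ n ≤ R} cc n (Y^(5/6) / (n rd n) + X²)`. The second terms:
`cc n ≤ C_δ n^δ`, `R ≤ 2 X`, so at most `X^(3 + ε')`, negligible (`5 - 6 lam > 4`). The first:
`1 / n ≤ T^(-(1 - u)) n^(-u)`, so at most `C Y^(5/6) T^(-1) T^u exp ((1 + ε') 2 / (u log (1/u)))` by GENU;
`Y^(5/6) / T = 2^lam Y^(5/6 - lam) ≤ C X^(5 - 6 lam)`, `T^u ≤ exp (u (v + C))`, and `u = 2 / √(v log v)` gives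
`u v = 2 √(v / log v)`, `2 / (u log (1/u)) ~ 4 / (u log v) = 2 √(v / log v)`, the sum is
`(4 + o(1)) √(v / log v) = (1 + o(1)) √(96 lam L / log L)`. Compare `Pool.Agent.N776.RS.up`. -/
def S_UPA : Prop := ∀ lam ε : ℝ, 0 < lam → lam < 1 / 6 → 0 < ε → ∃ X₀ : ℝ, 3 < X₀ ∧
  ∀ (X Y R : ℝ) (F : Finset (ℤ × ℤ)), X₀ ≤ X → 1 ≤ Y → Y ≤ 31 * X ^ 6 → 1 ≤ R → R ^ 6 ≤ Y →
    (∀ x ∈ F, Mn x.1 x.2 ∧ |(x.1 : ℝ)| ≤ X ^ 2 ∧ |((Dd x.1 x.2 : ℤ) : ℝ)| ≤ Y ∧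
      ∃ n : ℕ, 1 ≤ n ∧ (Y / 2) ^ lam ≤ n ∧ (n : ℝ) ≤ R ∧ Cn n x.1 x.2) →
    (F.card : ℝ) ≤ Real.exp ((5 - 6 * lam) * Real.log X +
      (1 + ε) * √(96 * lam * Real.log X / Real.log (Real.log X)))

/-- UPB (divisors with large prime factors), from PERA, LP and GENU. `T = (Y/2)^lam`, `W = X^η`. (1) `n` with
`n ≤ T²` (this is so if `n` is not a prime: if `q` is the smallest prime factor and `q' ` another one, or the same if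
`q² ∣ n`, then `q ≤ q'`, `q' ≤ n / q < T`): by PERA the number of the pairs is at most
`∑_{T W < n ≤ T²} C 6^ω(n) (Y^(5/6) / (n rd n) + X²)`; `6^ω(n) ≤ C_δ X^δ`, `∑_{n ≥ T W} 1 / (n rd n) ≤ C_δ (T W)^(-1+δ)` (from
GENU with a fixed `u`), `Y^(5/6) / T ≤ C X^(5 - 6 lam)`, `X² T² ≤ C X^(2 + 12 lam)` and `2 + 12 lam < 5 - 6 lam`.
(2) `n = p` prime, `p ≤ P₀ = X^(3 - 6 lam - η')`: the same, with `∑_{p ≤ P₀} X² ≤ X^(5 - 6 lam - η')`.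
(3) `n = p > P₀`: `p² ∣ D`, and LP gives `C X^(8 + ε) / P₀² = C X^(2 + 12 lam + 2 η' + ε)`. -/
def S_UPB : Prop := ∀ lam η : ℝ, 0 < lam → lam < 1 / 6 → 0 < η → ∃ X₀ : ℝ, 3 < X₀ ∧
  ∀ (X Y : ℝ) (F : Finset (ℤ × ℤ)), X₀ ≤ X → 1 ≤ Y → Y ≤ 31 * X ^ 6 →
    (∀ x ∈ F, x.1 ≠ 0 ∧ Mn x.1 x.2 ∧ |(x.1 : ℝ)| ≤ X ^ 2 ∧ |(x.2 : ℝ)| ≤ X ^ 3 ∧
      |((Dd x.1 x.2 : ℤ) : ℝ)| ≤ Y ∧
      ∃ n : ℕ, (Y / 2) ^ lam * X ^ η < n ∧ n.Coprime 6 ∧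
        (∀ p ∈ n.primeFactors, (n : ℝ) / p < (Y / 2) ^ lam) ∧ Cn n x.1 x.2) →
    (F.card : ℝ) ≤ X ^ (5 - 6 * lam)

/-- UP (the upper bound), from GAIN, CNT, UPA, UPB. Cut `F` according to `Y/2 < |D| ≤ Y`, `Y = 31 X⁶ / 2^k`
(at most `C log X` values, absorbed by `ε`; `|D| ≤ 31 X⁶`). (1) `Y ≤ X^(6 - 36 lam / 5)`: CNT with `n = 1`,
`Y^(5/6) ≤ X^(5 - 6 lam)`. (2) `Y > X^(6 - 36 lam / 5) ≥ X^(24/5)`: by GAIN `n₀ = |D| / N₆ ≥ |D|^lam ≥ T = (Y/2)^lam`;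
the least divisor `n ≥ T` of `n₀` satisfies `Cn n` and `n / p < T` for all primes `p ∣ n`. If `n ≤ T W`,
`W = X^η`: UPA with `R = T W`, `R⁶ ≤ Y^(6 lam) X^(6 η) ≤ Y` for `6 η ≤ (24/5) (1 - 6 lam)`. If `n > T W` all the primes
`p ∣ n` are `> W`, so `n` is coprime to 6, and UPB applies to the pairs with `a ≠ 0`; at most `2 X³ + 1` pairs have
`a = 0`. -/
def S_UP : Prop := ∀ lam ε : ℝ, 0 < lam → lam < 1 / 6 → 0 < ε → ∃ X₀ : ℝ, 3 < X₀ ∧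
  ∀ (X : ℝ) (F : Finset (ℤ × ℤ)), X₀ ≤ X →
    (∀ x ∈ F, Mn x.1 x.2 ∧ |(x.1 : ℝ)| ≤ X ^ 2 ∧ |(x.2 : ℝ)| ≤ X ^ 3 ∧
      (Nc x.1 x.2 : ℝ) * |((Dd x.1 x.2 : ℤ) : ℝ)| ^ lam ≤ |((Dd x.1 x.2 : ℤ) : ℝ)|) →
    (F.card : ℝ) ≤ Real.exp ((5 - 6 * lam) * Real.log X +
      (1 + ε) * √(96 * lam * Real.log X / Real.log (Real.log X)))

/-! ### The lower bound -/

/-- GLOWQ. From `Pool.Agent.N42.RSA.elow_abs` or its proof and the prime number theorem (compare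
`Pool.Agent.N438.RS.glow`): take the primes `u^(-(1+ε')) ≤ p ≤ exp (δ / u)`, `δ` small; the local factor is
`1 + ∑_{1 ≤ g} p^(-gu-1) + ∑_{5 ≤ g} p^(-gu-1) = 1 + (1 + p^(-4u)) / (p (p^u - 1))` and `p^(-4u) ≥ 1 - 4δ`. -/
def S_GLOWQ : Prop := ∀ ε : ℝ, 0 < ε → ε < 1 / 3 → ∃ u₀ : ℝ, 0 < u₀ ∧ u₀ < 1 / 2 ∧
  ∀ u : ℝ, 0 < u → u < u₀ → ∃ F : Finset (ℕ × ℕ),
    (∀ x ∈ F, 1 ≤ x.1 ∧ 1 ≤ x.2 ∧ x.1.Coprime x.2 ∧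
      (∀ p ∈ (x.1 * x.2).primeFactors, u ^ (-(1 + ε)) ≤ (p : ℝ)) ∧
      ∀ p ∈ x.2.primeFactors, 5 ≤ x.2.factorization p) ∧
    Real.exp ((1 - 3 * ε) * 2 / (u * Real.log (1 / u))) ≤
      ∑ x ∈ F, ((x.1 * x.2 : ℕ) : ℝ) ^ (-u) / ((∏ p ∈ (x.1 * x.2).primeFactors, p : ℕ) : ℝ)

/-- WINQ. From GUPQ and GLOWQ, exactly as `Pool.Agent.N34.RS.win` (with 2 instead of 3 and 16 instead of
24; for the pairs `(q, r)` use that a given `n = q r` comes from `2^ω(n)` coprime pairs, so GUPQ with `2 μ`). -/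
def S_WINQ : Prop := ∀ ε c : ℝ, 0 < ε → ε < 1 → 0 < c → ∃ Z₀ : ℝ, 1 < Z₀ ∧ ∀ Z : ℝ, Z₀ ≤ Z →
  ∃ F : Finset (ℕ × ℕ),
    (∀ x ∈ F, 1 ≤ x.1 ∧ 1 ≤ x.2 ∧ x.1.Coprime x.2 ∧
      (∀ p ∈ (x.1 * x.2).primeFactors, √Z < (p : ℝ)) ∧
      (∀ p ∈ x.2.primeFactors, 5 ≤ x.2.factorization p) ∧
      Real.log (x.1 * x.2 : ℕ) ≤ Z ∧
      Real.log (∏ p ∈ (x.1 * x.2).primeFactors, p : ℕ) ≤ ε * Z ∧
      ∑ p ∈ (x.1 * x.2).primeFactors, (1 : ℝ) / p ≤ c) ∧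
    Real.exp ((1 - ε) * √(16 * Z / Real.log Z)) ≤
      ∑ x ∈ F, (1 : ℝ) / ((∏ p ∈ (x.1 * x.2).primeFactors, p : ℕ) : ℝ)

/-- LOWQ (many curves with given local types). `u = rd r`, `X₁ = X / u`, `m = 5^(j+1) q (rd q) (r / u⁴)` (coprime to 6;
`p ∣ q`: exponent `v_p(q) + 1`; `p ∣ r`: exponent `v_p(r) - 4 ≥ 1`). Take `(a, b) = (u² a₁, u³ b₁)` with
`|a₁| ≤ X₁²`, `|b₁| ≤ X₁³`, `a₁ ≡ 1` modulo 6, and `(a₁, b₁) ≡ (3t², 2t³)` modulo `m` for a unit `t` modulo `m` (different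
`t` give different classes, `t = 3 b₁ / (2 a₁)`; `m ∣ D₁ = Dd a₁ b₁`; and conversely `m ∣ D₁`, `a₁` coprime to `m` imply
this). At least `φ(m) (2X₁²/(6m) - 1) (2X₁³/m - 1) ≥ φ(m) X₁⁵ / (6m²)` pairs. Remove:
(R1) the pairs with `m p ∣ D₁` for some `p ∣ q r`: `p φ(m)` classes modulo `m p`, `m p ≤ X₁²`, so at most
`9 φ(m) X₁⁵ / (m² p)` for each `p`; (R2) for the primes `z < p ≤ P` not dividing `q r` the pairs with (`p ∤ a₁`, `p² ∣ D₁`)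
or (`p ∣ a₁`, `p² ∣ b₁`): at most `φ(m) p²` classes modulo `m p²`, at most `9 φ(m) X₁⁵ / (m² p²)`; (R3) for the primes
`p ≥ 5` not dividing `m` those with `p⁴ ∣ a₁`, `p⁶ ∣ b₁`: `≤ 9 φ(m) X₁⁵ / (m² p^10)` if `m p⁴ ≤ X₁²`; if `m p⁴ > X₁²` at most
`(2X₁²/p⁴ + 1)(2X₁³/p⁶ + 1) ≤ 9 X₁⁵ / p^10` of them (`p⁴ ≤ X₁²` as `a₁ ≠ 0`), in total at most
`9 X₁⁵ (m / X₁²)^(9/4)`, small compared with `X₁⁵ / m` as `m ≤ X₁^(4/3)`; (R4) `D₁ = 0`: at most `2 (2X₁²+1)`.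
For small `c₁` and large `C₀` at least half remain. Then `D = u⁶ D₁`, for `p ∣ q`: `p ∤ a`, `v_p(D) = v_p(q) + 1`; for
`p ∣ r`: `p ∣ a`, `v_p(D) = 6 + v_p(r) - 4 = v_p(r) + 2`; for the other `p` in `(z, P]`: `v_p(D) ≤ 1` or (`p ∣ a`, `v_p(D) ≤ 2`).
`φ(m)/m ≥ (4/5) ∏_{p ∣ qr} (1 - 1/p) ≥ 1/2` and `X₁⁵ / m = X⁵ / (5^(j+1) q r (rd q) (rd r))`. -/
def S_LOWQ : Prop := ∃ c₁ c C₀ : ℝ, 0 < c₁ ∧ 0 < c ∧ 5 < C₀ ∧ ∀ (X z P : ℝ) (j q r : ℕ),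
  1 ≤ q → 1 ≤ r → q.Coprime r → C₀ ≤ z → (∀ p ∈ (q * r).primeFactors, z < (p : ℝ) ∧ (p : ℝ) ≤ P) →
  (∀ p ∈ r.primeFactors, 5 ≤ r.factorization p) → ∑ p ∈ (q * r).primeFactors, (1 : ℝ) / p ≤ c₁ →
  C₀ ≤ X / rd r →
  (5 : ℝ) ^ (j + 1) * q * rd q * (r / (rd r : ℝ) ^ 4) ≤ (X / rd r) ^ (4 / 3 : ℝ) →
  (5 : ℝ) ^ (j + 1) * q * rd q * (r / (rd r : ℝ) ^ 4) * P ^ 2 ≤ (X / rd r) ^ 2 →
  ∃ F : Finset (ℤ × ℤ),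
    (∀ x ∈ F, Mn x.1 x.2 ∧ |(x.1 : ℝ)| ≤ X ^ 2 ∧ |(x.2 : ℝ)| ≤ X ^ 3 ∧
      Cn (5 ^ j * q * r) x.1 x.2 ∧
      ∀ p : ℕ, p.Prime → z < (p : ℝ) → (p : ℝ) ≤ P →
        (((p : ℤ) ∣ x.1 → (Dd x.1 x.2).natAbs.factorization p - 2 = r.factorization p ∧
          q.factorization p = 0) ∧
        (¬ (p : ℤ) ∣ x.1 → (Dd x.1 x.2).natAbs.factorization p - 1 = q.factorization p ∧
          r.factorization p = 0))) ∧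
    c * X ^ 5 / ((5 : ℝ) ^ j * q * r * rd (q * r)) ≤ F.card

/-- LO (the lower bound), from GAIN, WINQ, LOWQ. `T = A (31 X⁶)^lam`, `Z = log T`, `F₀` from WINQ with small `ε'`
and `c = c₁`; `z = √Z`, `P = exp (ε' Z)`. For `(q, r) ∈ F₀` let `j` be minimal with `5^j q r ≥ T`, so `5^j q r ≤ 5 T`
(`q r ≤ T`). LOWQ applies: `m = 5^(j+1) q rd q r / (rd r)^4 ≤ 25 T rd(q r) ≤ X^(6 lam + 7 ε')`, `rd r ≤ X^(6 ε')`. Its pairs satisfy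
`|D| / N₆ ≥ 5^j q r ≥ T ≥ A |D|^lam` (with `n₀ = |D| / N₆` from GAIN: `Cn (5^j q r)` implies `5^j q r ∣ n₀`). For different
`(q, r) ∈ F₀` the sets are disjoint: `q` and `r` can be read off from `x` (all their primes are in `(z, P]`). So
the number is at least `∑ c X⁵ / (5 T rd (q r)) ≥ c' X^(5 - 6 lam) exp ((1 - ε') √(16 Z / log Z))`,
`Z = 6 lam log X + O(1)`. -/
def S_LO : Prop := ∀ lam A ε : ℝ, 0 < lam → lam < 1 / 6 → 1 ≤ A → 0 < ε → ε < 1 → ∃ X₀ : ℝ, 3 < X₀ ∧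
  ∀ X : ℝ, X₀ ≤ X → ∃ F : Finset (ℤ × ℤ),
    (∀ x ∈ F, Mn x.1 x.2 ∧ |(x.1 : ℝ)| ≤ X ^ 2 ∧ |(x.2 : ℝ)| ≤ X ^ 3 ∧
      A * (Nc x.1 x.2 : ℝ) * |((Dd x.1 x.2 : ℤ) : ℝ)| ^ lam ≤ |((Dd x.1 x.2 : ℤ) : ℝ)|) ∧
    Real.exp ((5 - 6 * lam) * Real.log X +
      (1 - ε) * √(96 * lam * Real.log X / Real.log (Real.log X))) ≤ F.card

end Pool.Agent.N906.SZ
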