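import Pool.Agent.N906.SZ.Stm
import Pool.Agent.N906.RS.Asy

set_option autoImplicit false

/-!
# Project SZ: the limit, from UP and LO
-/

namespace Pool.Agent.N906.SZ

open Finset Filter Topology

/-- the curves -/
def CV (f : ℤ → ℤ → ℝ) (σ X : ℝ) : Set (ℤ × ℤ) :=
  {q | Mn q.1 q.2 ∧ |(q.1 : ℝ)| ≤ X ^ 2 ∧ |(q.2 : ℝ)| ≤ X ^ 3 ∧
    f q.1 q.2 ^ σ ≤ |((Dd q.1 q.2 : ℤ) : ℝ)|}

theorem Nc_pos (a b : ℤ) : 0 < Nc a b := by
  unfold Nc
  refine Finset.prod_pos fun p hp => ?_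
  have hp0 : 0 < p := (Nat.prime_of_mem_primeFactors (Finset.mem_filter.1 hp).1).pos
  split_ifs
  · positivity
  · exact hp0

theorem box_fin (X : ℝ) : {q : ℤ × ℤ | |(q.1 : ℝ)| ≤ X ^ 2 ∧ |(q.2 : ℝ)| ≤ X ^ 3}.Finite := by
  refine ((Set.finite_Icc (-⌈X ^ 2⌉) ⌈X ^ 2⌉).prod (Set.finite_Icc (-⌈X ^ 3⌉) ⌈X ^ 3⌉)).subset ?_
  rintro ⟨a, b⟩ ⟨h1, h2⟩
  simp only at h1 h2
  rw [abs_le] at h1 h2
  have g1 := Int.le_ceil (X ^ 2)
  have g2 := Int.le_ceil (X ^ 3)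
  refine ⟨⟨?_, ?_⟩, ⟨?_, ?_⟩⟩
  · exact_mod_cast (by push_cast; linarith [h1.1] : ((-⌈X ^ 2⌉ : ℤ) : ℝ) ≤ (a : ℝ))
  · exact_mod_cast (by linarith [h1.2] : (a : ℝ) ≤ ((⌈X ^ 2⌉ : ℤ) : ℝ))
  · exact_mod_cast (by push_cast; linarith [h2.1] : ((-⌈X ^ 3⌉ : ℤ) : ℝ) ≤ (b : ℝ))
  · exact_mod_cast (by linarith [h2.2] : (b : ℝ) ≤ ((⌈X ^ 3⌉ : ℤ) : ℝ))

theorem CV_fin (f : ℤ → ℤ → ℝ) (σ X : ℝ) : (CV f σ X).Finite :=
  (box_fin X).subset fun _ hq => ⟨hq.2.1, hq.2.2.1⟩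

/-- the comparison of the two forms of the condition -/
theorem cond_up {σ lam N D f : ℝ} (hσ : 1 < σ) (hl : lam = 1 - 1 / σ) (hN : 1 ≤ N) (hNf : N ≤ f)
    (hD : 0 < D) (h : f ^ σ ≤ D) : N * D ^ lam ≤ D := by
  have hσ0 : 0 < σ := by linarith
  have h1 : N ^ σ ≤ D := (Real.rpow_le_rpow (by linarith) hNf hσ0.le).trans h
  have h2 : N ≤ D ^ (1 / σ) := by
    have h3 := Real.rpow_le_rpow (by positivity) h1 (by positivity : (0 : ℝ) ≤ 1 / σ)
    rwa [← Real.rpow_mul (by linarith), mul_one_div_cancel hσ0.ne', Real.rpow_one] at h3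
  calc N * D ^ lam ≤ D ^ (1 / σ) * D ^ lam := by gcongr
    _ = D ^ (1 : ℝ) := by
        rw [← Real.rpow_add hD]
        congr 1
        rw [hl]
        ring
    _ = D := Real.rpow_one D

theorem cond_lo {σ lam N D f A : ℝ} (hσ : 1 < σ) (hl : lam = 1 - 1 / σ) (hf : 0 ≤ f)
    (hNf : f ≤ A * N) (hD : 0 < D) (h : A * N * D ^ lam ≤ D) : f ^ σ ≤ D := by
  have hσ0 : 0 < σ := by linarith
  have h1 : f * D ^ lam ≤ D := le_trans (by gcongr) h
  have h2 : f ≤ D ^ (1 / σ) := by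
    have h3 : D = D ^ (1 / σ) * D ^ lam := by
      rw [← Real.rpow_add hD]
      have : 1 / σ + lam = 1 := by rw [hl]; ring
      rw [this, Real.rpow_one]
    have h4 : f * D ^ lam ≤ D ^ (1 / σ) * D ^ lam := by rw [← h3]; exact h1
    exact le_of_mul_le_mul_right h4 (Real.rpow_pos_of_pos hD _)
  calc f ^ σ ≤ (D ^ (1 / σ)) ^ σ := Real.rpow_le_rpow hf h2 hσ0.le
    _ = D := by rw [← Real.rpow_mul hD.le, one_div_mul_cancel hσ0.ne', Real.rpow_one]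

/-- the limit -/
theorem limit (hU : S_UP) (hL : S_LO) {f : ℤ → ℤ → ℝ} {A : ℝ} (hA : 1 ≤ A)
    (hf : ∀ a b, Mn a b → (Nc a b : ℝ) ≤ f a b ∧ f a b ≤ A * Nc a b)
    {σ : ℝ} (h1 : 1 < σ) (h2 : σ < 6 / 5) :
    Tendsto (fun X : ℝ => (Real.log ((CV f σ X).ncard : ℝ) - (6 / σ - 1) * Real.log X) /
      √(Real.log X / Real.log (Real.log X))) atTop (𝓝 √(96 * (1 - 1 / σ))) := by
  have hσ0 : 0 < σ := by linarith
  obtain ⟨lam, hlam⟩ : ∃ lam : ℝ, lam = 1 - 1 / σ := ⟨_, rfl⟩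
  have hl0 : 0 < lam := by
    rw [hlam, sub_pos, div_lt_one hσ0]
    exact h1
  have hl1 : lam < 1 / 6 := by
    have : 5 / 6 < 1 / σ := by
      rw [lt_div_iff₀ hσ0]
      linarith
    rw [hlam]
    linarith
  have key := Pool.Agent.N906.RS.squeeze (k := 4 * lam) (d := 1) (e := 5 - 6 * lam) (by positivity)
    one_pos (fun L => ((CV f σ (Real.exp L)).ncard : ℝ)) 0 ?_ ?_
  · have h := key.comp Real.tendsto_log_atTop
    have e1 : √(24 * (4 * lam) * 1) = √(96 * (1 - 1 / σ)) := by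
      rw [← hlam]
      congr 1
      ring
    rw [e1] at h
    refine h.congr' ?_
    filter_upwards [eventually_gt_atTop (0 : ℝ)] with X hX
    simp only [Function.comp_apply, one_mul]
    rw [Real.exp_log hX]
    congr 3
    rw [hlam]
    field_simp
    ring
  · intro ε hε
    obtain ⟨X₀, hX₀, h⟩ := hU lam ε hl0 hl1 hε
    refine ⟨max 2 (Real.log X₀), lt_of_lt_of_le (by norm_num) (le_max_left _ _), fun L hL => ?_⟩
    have hX : X₀ ≤ Real.exp L := by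
      rw [← Real.log_le_iff_le_exp (by linarith)]
      exact (le_max_right _ _).trans hL
    have hfin := CV_fin f σ (Real.exp L)
    have h3 := h (Real.exp L) hfin.toFinset hX ?_
    · rw [← Set.ncard_eq_toFinset_card _ hfin, Real.log_exp] at h3
      convert h3 using 5
      ring
    · intro x hx
      rw [Set.Finite.mem_toFinset] at hx
      obtain ⟨g1, g2, g3, g4⟩ := hx
      refine ⟨g1, g2, g3, ?_⟩
      have hD : (0 : ℝ) < |((Dd x.1 x.2 : ℤ) : ℝ)| := abs_pos.2 (by exact_mod_cast g1.1)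
      exact cond_up h1 hlam (by exact_mod_cast Nc_pos x.1 x.2) (hf _ _ g1).1 hD g4
  · intro ε hε hε1
    obtain ⟨X₀, hX₀, h⟩ := hL lam A ε hl0 hl1 hA hε hε1
    refine ⟨max 2 (Real.log X₀), lt_of_lt_of_le (by norm_num) (le_max_left _ _), fun L hL => ?_⟩
    have hX : X₀ ≤ Real.exp L := by
      rw [← Real.log_le_iff_le_exp (by linarith)]
      exact (le_max_right _ _).trans hL
    obtain ⟨F, hF, h3⟩ := h (Real.exp L) hX
    rw [Real.log_exp] at h3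
    have h4 : (F.card : ℝ) ≤ ((CV f σ (Real.exp (L + 0))).ncard : ℝ) := by
      rw [add_zero]
      have h5 : (F : Set (ℤ × ℤ)) ⊆ CV f σ (Real.exp L) := by
        intro x hx
        obtain ⟨g1, g2, g3, g4⟩ := hF x hx
        refine ⟨g1, g2, g3, ?_⟩
        have hD : (0 : ℝ) < |((Dd x.1 x.2 : ℤ) : ℝ)| := abs_pos.2 (by exact_mod_cast g1.1)
        refine cond_lo h1 hlam ?_ (hf _ _ g1).2 hD g4
        exact le_trans (by positivity) (hf _ _ g1).1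
      have h6 := Set.ncard_le_ncard h5 (CV_fin f σ _)
      rw [Set.ncard_coe_finset] at h6
      exact_mod_cast h6
    refine le_trans (le_of_eq ?_) (h3.trans h4)
    congr 5
    ring

end Pool.Agent.N906.SZ
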