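import Mathlib
import Pool.Agent.N906.SZ.Cnt
import Pool.Agent.N157.SZ_GAIN
import Pool.Agent.N966.SZ_DENS
import Pool.Agent.N487.SZ_REG
import Pool.Agent.N945.SZ_PERA
import Pool.Agent.N56.SZ_CONIC
import Pool.Agent.N92.SZ_LP
import Pool.Agent.N72.SZ_EUPQ
import Pool.Agent.N407.SZ_GLOWQ
import Pool.Agent.N407.SZ_WINQ
import Pool.Agent.N50.SZ_UPA
import Pool.Agent.N92.SZ_UPB
import Pool.Agent.N92.SZ_UP
import Pool.Agent.N56.SZ_LOWQ
import Pool.Agent.N232.SZ_LO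

/-! # Project SZ: all parts together -/

set_option autoImplicit false

namespace Pool.Agent.N906.SZ

theorem up_all : S_UP :=
  Pool.Agent.N92.SZ.up Pool.Agent.N157.SZ.gain
    (cnt Pool.Agent.N966.SZ.dens Pool.Agent.N487.SZ.reg)
    (Pool.Agent.N50.SZ.upa (cnt Pool.Agent.N966.SZ.dens Pool.Agent.N487.SZ.reg)
      Pool.Agent.N72.SZ.genu)
    (Pool.Agent.N92.SZ.upb Pool.Agent.N945.SZ.pera (Pool.Agent.N92.SZ.lp Pool.Agent.N56.SZ.conic)
      Pool.Agent.N72.SZ.genu)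

theorem lo_all : S_LO :=
  Pool.Agent.N232.SZ.lo Pool.Agent.N157.SZ.gain
    (Pool.Agent.N407.SZ.winq Pool.Agent.N72.SZ.gupq Pool.Agent.N407.SZ.glowq)
    Pool.Agent.N56.SZ.lowq

end Pool.Agent.N906.SZ
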